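import Mathlib
import Pool.Agent.Helper50.MB.Goals

/-!
# Project MB, packet MSM: comparison with the definition of semi-meanders
-/

namespace Pool.Agent.Helper52.MB

open Pool.Agent.Helper33.Meander Pool.Agent.Helper50.MB

theorem nci_mem {l h : ℤ} {a : ℤ → ℤ} (ha : NCI l h a) {z : ℤ} (h1 : l ≤ z) (h2 : z < h) :
    l ≤ a z ∧ a z < h := by
  by_contra hc
  have h3 : a z < l ∨ h ≤ a z := by
    by_contra h4
    push Not at h4
    exact hc h4
  have h5 := ha.out (a z) h3
  rw [ha.inv] at h5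
  rw [← h5] at h3
  omega

/-- The map of sides to points. -/
def toF (n : ℕ) (z : ℤ) (h : -(n : ℤ) ≤ z ∧ z < n) : Fin (2 * n) :=
  ⟨(z + n).toNat, by omega⟩

theorem toF_val (n : ℕ) (z : ℤ) (h : -(n : ℤ) ≤ z ∧ z < n) : ((toF n z h : ℕ) : ℤ) = z + n := by
  simp only [toF]
  omega

/-- Restriction. -/
noncomputable def dwn (n : ℕ) (a : ℤ → ℤ) (x : Fin (2 * n)) : Fin (2 * n) :=
  ⟨if h : -(n : ℤ) ≤ a ((x : ℕ) - n) ∧ a ((x : ℕ) - n) < n then (a ((x : ℕ) - n) + n).toNat else x,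
    by
      split_ifs with h
      · omega
      · exact x.2⟩

theorem dwn_val {n : ℕ} {a : ℤ → ℤ} (ha : NCI (-(n : ℤ)) n a) (x : Fin (2 * n)) :
    ((dwn n a x : ℕ) : ℤ) = a ((x : ℕ) - n) + n := by
  have h := nci_mem ha (z := (x : ℕ) - n) (by omega) (by omega)
  simp only [dwn]
  rw [dif_pos h]
  omega

/-- Extension. -/
noncomputable def upp (n : ℕ) (b : Fin (2 * n) → Fin (2 * n)) (z : ℤ) : ℤ :=
  if h : -(n : ℤ) ≤ z ∧ z < n then ((b (toF n z h) : ℕ) : ℤ) - n else z

theorem upp_in {n : ℕ} (b : Fin (2 * n) → Fin (2 * n)) {z : ℤ} (h : -(n : ℤ) ≤ z ∧ z < n) :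
    upp n b z = ((b (toF n z h) : ℕ) : ℤ) - n := by
  rw [upp, dif_pos h]

theorem upp_out {n : ℕ} (b : Fin (2 * n) → Fin (2 * n)) {z : ℤ} (h : ¬ (-(n : ℤ) ≤ z ∧ z < n)) :
    upp n b z = z := by
  rw [upp, dif_neg h]

theorem upp_range {n : ℕ} (b : Fin (2 * n) → Fin (2 * n)) {z : ℤ} (h : -(n : ℤ) ≤ z ∧ z < n) :
    -(n : ℤ) ≤ upp n b z ∧ upp n b z < n := by
  rw [upp_in b h]
  have := (b (toF n z h)).2
  omega

theorem toF_upp {n : ℕ} (b : Fin (2 * n) → Fin (2 * n)) {z : ℤ} (h : -(n : ℤ) ≤ z ∧ z < n) :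
    toF n (upp n b z) (upp_range b h) = b (toF n z h) := by
  apply Fin.ext
  have h1 := toF_val n (upp n b z) (upp_range b h)
  have h2 := upp_in b h
  omega

theorem nci_upp {n : ℕ} {b : Fin (2 * n) → Fin (2 * n)} (hb : NCMatching b) :
    NCI (-(n : ℤ)) n (upp n b) := by
  constructor
  · intro z
    by_cases h : -(n : ℤ) ≤ z ∧ z < n
    · rw [upp_in b (upp_range b h), toF_upp b h, hb.invol, toF_val]
      ring
    · rw [upp_out b h, upp_out b h]
  · intro z hz
    exact upp_out b (by omega)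
  · intro z h1 h2 h3
    have h : -(n : ℤ) ≤ z ∧ z < n := ⟨h1, h2⟩
    rw [upp_in b h] at h3
    apply hb.ne (toF n z h)
    apply Fin.ext
    have := toF_val n z h
    omega
  · intro x y hxy hyx
    by_cases h : -(n : ℤ) ≤ x ∧ x < n
    · have h2 := upp_range b h
      have hy : -(n : ℤ) ≤ y ∧ y < n := by omega
      rw [upp_in b h] at hyx ⊢
      rw [upp_in b hy]
      have h3 := hb.nc (toF n x h) (toF n y hy) (by
        rw [Fin.lt_def]
        have := toF_val n x h
        have := toF_val n y hy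
        omega) (by
        rw [Fin.lt_def]
        have := toF_val n x h
        have := toF_val n y hy
        omega)
      rw [Fin.lt_def] at h3
      omega
    · rw [upp_out b h] at hyx ⊢
      omega

theorem nc_dwn {n : ℕ} {a : ℤ → ℤ} (ha : NCI (-(n : ℤ)) n a) : NCMatching (dwn n a) := by
  constructor
  · intro x
    apply Fin.ext
    have h1 := dwn_val ha (dwn n a x)
    have h2 := dwn_val ha x
    rw [h2] at h1
    have h3 : a ((x : ℕ) - n) + n - n = a ((x : ℕ) - n) := by ring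
    rw [h3, ha.inv] at h1
    omega
  · intro x hx
    have h2 := dwn_val ha x
    rw [hx] at h2
    exact ha.ne ((x : ℕ) - n) (by omega) (by omega) (by omega)
  · intro x y hxy hyx
    rw [Fin.lt_def] at hxy hyx ⊢
    have h1 := dwn_val ha x
    have h2 := dwn_val ha y
    have h3 := ha.nc ((x : ℕ) - n) ((y : ℕ) - n) (by omega) (by omega)
    omega

theorem upp_dwn {n : ℕ} {a : ℤ → ℤ} (ha : NCI (-(n : ℤ)) n a) : upp n (dwn n a) = a := by
  funext z
  by_cases h : -(n : ℤ) ≤ z ∧ z < n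
  · rw [upp_in _ h, dwn_val ha, toF_val]
    have : z + n - n = z := by ring
    rw [this]
    ring
  · rw [upp_out _ h, ha.out z (by omega)]

theorem dwn_upp {n : ℕ} {b : Fin (2 * n) → Fin (2 * n)} (hb : NCMatching b) :
    dwn n (upp n b) = b := by
  funext x
  apply Fin.ext
  have h1 := dwn_val (nci_upp hb) x
  have h : -(n : ℤ) ≤ (x : ℕ) - n ∧ ((x : ℕ) : ℤ) - n < n := by omega
  rw [upp_in b h] at h1
  have h2 : toF n ((x : ℕ) - n) h = x := by
    apply Fin.ext
    have := toF_val n ((x : ℕ) - n) h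
    omega
  rw [h2] at h1
  omega

theorem rev_val {n : ℕ} (x : Fin (2 * n)) : ((Fin.rev x : ℕ) : ℤ) = 2 * n - 1 - (x : ℕ) := by
  rw [Fin.val_rev]
  omega

theorem con_dwn {n : ℕ} {a : ℤ → ℤ} (ha : NCI (-(n : ℤ)) n a)
    (hc : CI (-(n : ℤ)) n a (fun z => -1 - z)) : SingleCycle (dwn n a) Fin.rev := by
  intro x y
  have key : ∀ z w : ℤ, Conn a (fun z => -1 - z) z w → ∀ hz : -(n : ℤ) ≤ z ∧ z < n,
      ∃ hw : -(n : ℤ) ≤ w ∧ w < n, Relation.ReflTransGen
        (fun s t => t = dwn n a s ∨ t = Fin.rev s) (toF n z hz) (toF n w hw) := by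
    intro z w hzw hz
    induction hzw with
    | refl => exact ⟨hz, Relation.ReflTransGen.refl⟩
    | @tail s t h1 h2 ih =>
      obtain ⟨hs, ih⟩ := ih
      rcases h2 with h2 | h2
      · have ht : -(n : ℤ) ≤ t ∧ t < n := by
          rw [h2]
          exact nci_mem ha hs.1 hs.2
        refine ⟨ht, ih.tail (Or.inl ?_)⟩
        apply Fin.ext
        have e1 := toF_val n t ht
        have e2 := dwn_val ha (toF n s hs)
        rw [toF_val] at e2
        have e3 : s + n - n = s := by ring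
        rw [e3, ← h2] at e2
        omega
      · have h2' : t = -1 - s := h2
        have ht : -(n : ℤ) ≤ t ∧ t < n := by omega
        refine ⟨ht, ih.tail (Or.inr ?_)⟩
        apply Fin.ext
        have e1 := toF_val n t ht
        have e2 := rev_val (toF n s hs)
        rw [toF_val] at e2
        omega
  have hx : -(n : ℤ) ≤ (x : ℕ) - n ∧ ((x : ℕ) : ℤ) - n < n := by omega
  have hy : -(n : ℤ) ≤ (y : ℕ) - n ∧ ((y : ℕ) : ℤ) - n < n := by omega
  obtain ⟨hw, h⟩ := key _ _ (hc ((x : ℕ) - n) ((y : ℕ) - n) hx.1 hx.2 hy.1 hy.2) hx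
  have e1 : toF n ((x : ℕ) - n) hx = x := by
    apply Fin.ext
    have := toF_val n ((x : ℕ) - n) hx
    omega
  have e2 : toF n ((y : ℕ) - n) hw = y := by
    apply Fin.ext
    have := toF_val n ((y : ℕ) - n) hw
    omega
  rw [e1, e2] at h
  exact h

theorem con_upp {n : ℕ} {b : Fin (2 * n) → Fin (2 * n)}
    (hc : SingleCycle b Fin.rev) : CI (-(n : ℤ)) n (upp n b) (fun z => -1 - z) := by
  intro x y hx1 hx2 hy1 hy2
  have key : ∀ s t : Fin (2 * n), Relation.ReflTransGen (fun s t => t = b s ∨ t = Fin.rev s) s t →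
      Conn (upp n b) (fun z => -1 - z) ((s : ℕ) - n) ((t : ℕ) - n) := by
    intro s t hst
    refine Relation.ReflTransGen.lift (p := fun s t => t = upp n b s ∨ t = -1 - s)
      (fun s : Fin (2 * n) => ((s : ℕ) : ℤ) - n) ?_ _ _ hst
    intro s t h
    have hs : -(n : ℤ) ≤ (s : ℕ) - n ∧ ((s : ℕ) : ℤ) - n < n := by omega
    have e1 : toF n ((s : ℕ) - n) hs = s := by
      apply Fin.ext
      have := toF_val n ((s : ℕ) - n) hs
      omega
    rcases h with h | h
    · left
      show ((t : ℕ) : ℤ) - n = upp n b ((s : ℕ) - n)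
      rw [upp_in b hs, e1, h]
    · right
      show ((t : ℕ) : ℤ) - n = -1 - (((s : ℕ) : ℤ) - n)
      rw [h]
      have := rev_val s
      omega
  have h := key _ _ (hc (toF n x ⟨hx1, hx2⟩) (toF n y ⟨hy1, hy2⟩))
  rw [toF_val, toF_val] at h
  have e1 : x + n - n = x := by ring
  have e2 : y + n - n = y := by ring
  rw [e1, e2] at h
  exact h

/-- Packet MSM. -/
theorem goalMSM : Pool.Agent.Helper50.MB.MSM := by
  intro n
  unfold cT semimeanders
  apply Nat.card_congr
  exact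
    { toFun := fun a => ⟨dwn n a.1, nc_dwn a.2.1.nci, con_dwn a.2.1.nci a.2.1.con⟩
      invFun := fun b => ⟨upp n b.1, ⟨nci_upp b.2.1, con_upp b.2.2⟩, fun h => by simp at h⟩
      left_inv := fun a => Subtype.ext (upp_dwn a.2.1.nci)
      right_inv := fun b => Subtype.ext (dwn_upp b.2.1) }

end Pool.Agent.Helper52.MB
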