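import Mathlib
import Pool.Agent.Helper50.MB.Goals
import Pool.Agent.Helper52.MB.MSM

/-!
# Project MB, packet MM: comparison with meanders
-/

namespace Pool.Agent.Helper52.MB.MMm

open Pool.Agent.Helper33.Meander Pool.Agent.Helper50.MB

/-- Points of the upper side. -/
def toG (m : ℕ) (z : ℤ) (h : 0 ≤ z ∧ z < m) : Fin m := ⟨z.toNat, by omega⟩

theorem toG_val (m : ℕ) (z : ℤ) (h : 0 ≤ z ∧ z < m) : ((toG m z h : ℕ) : ℤ) = z := by
  simp only [toG]
  omega

/-- The upper matching. -/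
noncomputable def uu (m : ℕ) (a : ℤ → ℤ) (x : Fin m) : Fin m :=
  ⟨if 0 ≤ a (x : ℕ) ∧ a (x : ℕ) < m then (a (x : ℕ)).toNat else x, by
    split_ifs with h
    · omega
    · exact x.2⟩

/-- The lower matching. -/
noncomputable def ll (m : ℕ) (a : ℤ → ℤ) (x : Fin m) : Fin m :=
  ⟨if 0 ≤ -1 - a (-1 - (x : ℕ)) ∧ -1 - a (-1 - (x : ℕ)) < m then (-1 - a (-1 - (x : ℕ))).toNat
    else x, by
    split_ifs with h
    · omega
    · exact x.2⟩

theorem uu_val {m : ℕ} {a : ℤ → ℤ} (ha : NCI (-(m : ℤ)) m a) (hf : HF a) (x : Fin m) :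
    ((uu m a x : ℕ) : ℤ) = a (x : ℕ) := by
  have h := nci_mem ha (z := (x : ℕ)) (by omega) (by omega)
  have h0 := (hf (x : ℕ)).1 (by omega)
  simp only [uu]
  rw [if_pos ⟨h0, h.2⟩]
  omega

theorem ll_val {m : ℕ} {a : ℤ → ℤ} (ha : NCI (-(m : ℤ)) m a) (hf : HF a) (x : Fin m) :
    ((ll m a x : ℕ) : ℤ) = -1 - a (-1 - (x : ℕ)) := by
  have h := nci_mem ha (z := -1 - (x : ℕ)) (by omega) (by omega)
  have h0 : ¬ 0 ≤ a (-1 - (x : ℕ)) := fun hh => by
    have := (hf (-1 - (x : ℕ))).2 hh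
    omega
  simp only [ll]
  rw [if_pos ⟨by omega, by omega⟩]
  omega

/-- The glued matching. -/
noncomputable def gl (m : ℕ) (u l : Fin m → Fin m) (z : ℤ) : ℤ :=
  if h : 0 ≤ z ∧ z < m then ((u (toG m z h) : ℕ) : ℤ)
  else if h' : 0 ≤ -1 - z ∧ -1 - z < m then -1 - ((l (toG m (-1 - z) h') : ℕ) : ℤ) else z

theorem gl_pos {m : ℕ} (u l : Fin m → Fin m) {z : ℤ} (h : 0 ≤ z ∧ z < m) :
    gl m u l z = ((u (toG m z h) : ℕ) : ℤ) := by
  rw [gl, dif_pos h]

theorem gl_neg {m : ℕ} (u l : Fin m → Fin m) {z : ℤ} (h : 0 ≤ -1 - z ∧ -1 - z < m) :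
    gl m u l z = -1 - ((l (toG m (-1 - z) h) : ℕ) : ℤ) := by
  rw [gl, dif_neg (by omega), dif_pos h]

theorem gl_out {m : ℕ} (u l : Fin m → Fin m) {z : ℤ} (h : z < -(m : ℤ) ∨ (m : ℤ) ≤ z) :
    gl m u l z = z := by
  rw [gl, dif_neg (by omega), dif_neg (by omega)]

theorem mir {m : ℕ} {u : Fin m → Fin m} (hu : NCMatching u) {x y : Fin m} (h1 : y < x)
    (h2 : u x < y) : u x < u y := by
  by_contra hc
  have h3 : u y ≤ u x := not_lt.1 hc
  rcases lt_or_eq_of_le h3 with h4 | h4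
  · have h5 := hu.nc (u y) (u x) h4 (by rw [hu.invol]; exact h2)
    rw [hu.invol, hu.invol] at h5
    exact absurd h1 (not_lt.2 (le_of_lt h5))
  · have : y = x := by rw [← hu.invol y, h4, hu.invol]
    exact absurd h1 (by rw [this]; exact lt_irrefl _)

theorem mirI {l h : ℤ} {a : ℤ → ℤ} (ha : NCI l h a) {x y : ℤ} (h1 : y < x)
    (h2 : a x < y) : a x < a y := by
  by_contra hc
  have h3 : a y ≤ a x := not_lt.1 hc
  rcases lt_or_eq_of_le h3 with h4 | h4
  · have h5 := ha.nc (a y) (a x) h4 (by rw [ha.inv]; exact h2)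
    rw [ha.inv, ha.inv] at h5
    omega
  · have : y = x := by rw [← ha.inv y, h4, ha.inv]
    omega

theorem nci_gl {m : ℕ} {u l : Fin m → Fin m} (hu : NCMatching u) (hl : NCMatching l) :
    NCI (-(m : ℤ)) m (gl m u l) := by
  have hG : ∀ (z : ℤ) (h : 0 ≤ z ∧ z < m), ∀ k : Fin m, ((k : ℕ) : ℤ) = z → toG m z h = k := by
    intro z h k hk
    apply Fin.ext
    have := toG_val m z h
    omega
  constructor
  · intro z
    by_cases h : 0 ≤ z ∧ z < m
    · have h1 := gl_pos u l h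
      have h2 : 0 ≤ gl m u l z ∧ gl m u l z < m := by omega
      rw [gl_pos u l h2, hG _ h2 _ h1.symm, hu.invol, toG_val]
    · by_cases h' : 0 ≤ -1 - z ∧ -1 - z < m
      · have h1 := gl_neg u l h'
        have h2 : 0 ≤ -1 - gl m u l z ∧ -1 - gl m u l z < m := by omega
        rw [gl_neg u l h2, hG _ h2 (l (toG m (-1 - z) h')) (by omega), hl.invol, toG_val]
        ring
      · rw [gl_out u l (z := z) (by omega), gl_out u l (z := z) (by omega)]
  · intro z hz
    exact gl_out u l hz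
  · intro z h1 h2 h3
    by_cases h : 0 ≤ z ∧ z < m
    · rw [gl_pos u l h] at h3
      exact hu.ne (toG m z h) (hG z h _ h3).symm
    · have h' : 0 ≤ -1 - z ∧ -1 - z < m := by omega
      rw [gl_neg u l h'] at h3
      exact hl.ne (toG m (-1 - z) h') (hG (-1 - z) h' _ (by omega)).symm
  · intro x y hxy hyx
    by_cases h : 0 ≤ x ∧ x < m
    · have h1 := gl_pos u l h
      have hy : 0 ≤ y ∧ y < m := by omega
      have h2 := gl_pos u l hy
      have e1 := toG_val m x h
      have e2 := toG_val m y hy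
      have h3 := hu.nc (toG m x h) (toG m y hy) (by rw [Fin.lt_def]; omega)
        (by rw [Fin.lt_def]; omega)
      rw [Fin.lt_def] at h3
      omega
    · by_cases h' : 0 ≤ -1 - x ∧ -1 - x < m
      · have h1 := gl_neg u l h'
        have hy : 0 ≤ -1 - y ∧ -1 - y < m := by omega
        have h2 := gl_neg u l hy
        have e1 := toG_val m (-1 - x) h'
        have e2 := toG_val m (-1 - y) hy
        have h3 := mir hl (x := toG m (-1 - x) h') (y := toG m (-1 - y) hy)
          (by rw [Fin.lt_def]; omega) (by rw [Fin.lt_def]; omega)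
        rw [Fin.lt_def] at h3
        omega
      · rw [gl_out u l (z := x) (by omega)] at hyx
        omega

theorem hf_gl {m : ℕ} (u l : Fin m → Fin m) : HF (gl m u l) := by
  intro z
  by_cases h : 0 ≤ z ∧ z < m
  · rw [gl_pos u l h]
    omega
  · by_cases h' : 0 ≤ -1 - z ∧ -1 - z < m
    · rw [gl_neg u l h']
      omega
    · rw [gl_out u l (z := z) (by omega)]

theorem nc_uu {m : ℕ} {a : ℤ → ℤ} (ha : NCI (-(m : ℤ)) m a) (hf : HF a) :
    NCMatching (uu m a) := by
  constructor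
  · intro x
    apply Fin.ext
    have h1 := uu_val ha hf (uu m a x)
    have h2 := uu_val ha hf x
    rw [h2, ha.inv] at h1
    omega
  · intro x hx
    have h2 := uu_val ha hf x
    rw [hx] at h2
    exact ha.ne (x : ℕ) (by omega) (by omega) (by omega)
  · intro x y hxy hyx
    rw [Fin.lt_def] at hxy hyx ⊢
    have h1 := uu_val ha hf x
    have h2 := uu_val ha hf y
    have h3 := ha.nc (x : ℕ) (y : ℕ) (by omega) (by omega)
    omega

theorem nc_ll {m : ℕ} {a : ℤ → ℤ} (ha : NCI (-(m : ℤ)) m a) (hf : HF a) :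
    NCMatching (ll m a) := by
  constructor
  · intro x
    apply Fin.ext
    have h1 := ll_val ha hf (ll m a x)
    have h2 := ll_val ha hf x
    have h3 : (-1 : ℤ) - (-1 - a (-1 - (x : ℕ))) = a (-1 - (x : ℕ)) := by ring
    rw [h2, h3, ha.inv] at h1
    omega
  · intro x hx
    have h2 := ll_val ha hf x
    rw [hx] at h2
    exact ha.ne (-1 - (x : ℕ)) (by omega) (by omega) (by omega)
  · intro x y hxy hyx
    rw [Fin.lt_def] at hxy hyx ⊢
    have h1 := ll_val ha hf x
    have h2 := ll_val ha hf y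
    have h3 := mirI ha (x := -1 - (x : ℕ)) (y := -1 - (y : ℕ)) (by omega) (by omega)
    omega

theorem gl_eq {m : ℕ} {a : ℤ → ℤ} (ha : NCI (-(m : ℤ)) m a) (hf : HF a) :
    gl m (uu m a) (ll m a) = a := by
  funext z
  by_cases h : 0 ≤ z ∧ z < m
  · rw [gl_pos _ _ h, uu_val ha hf, toG_val]
  · by_cases h' : 0 ≤ -1 - z ∧ -1 - z < m
    · rw [gl_neg _ _ h', ll_val ha hf, toG_val]
      have : -1 - (-1 - z) = z := by ring
      rw [this]
      ring
    · rw [gl_out _ _ (by omega), ha.out z (by omega)]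

theorem uu_gl {m : ℕ} {u l : Fin m → Fin m} (hu : NCMatching u) (hl : NCMatching l) :
    uu m (gl m u l) = u := by
  funext x
  apply Fin.ext
  have h1 := uu_val (nci_gl hu hl) (hf_gl u l) x
  have h : 0 ≤ ((x : ℕ) : ℤ) ∧ ((x : ℕ) : ℤ) < m := by omega
  rw [gl_pos u l h] at h1
  have h2 : toG m (x : ℕ) h = x := by
    apply Fin.ext
    have := toG_val m (x : ℕ) h
    omega
  rw [h2] at h1
  omega

theorem ll_gl {m : ℕ} {u l : Fin m → Fin m} (hu : NCMatching u) (hl : NCMatching l) :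
    ll m (gl m u l) = l := by
  funext x
  apply Fin.ext
  have h1 := ll_val (nci_gl hu hl) (hf_gl u l) x
  have h : 0 ≤ (-1 : ℤ) - (-1 - ((x : ℕ) : ℤ)) ∧ (-1 : ℤ) - (-1 - ((x : ℕ) : ℤ)) < m := by omega
  rw [gl_neg u l h] at h1
  have h2 : toG m (-1 - (-1 - ((x : ℕ) : ℤ))) h = x := by
    apply Fin.ext
    have := toG_val m (-1 - (-1 - ((x : ℕ) : ℤ))) h
    omega
  rw [h2] at h1
  omega

theorem cr_pos {z : ℤ} (h : 0 ≤ z) : ((cr z : ℕ) : ℤ) = z := by
  rw [cr, if_pos h]
  omega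

theorem cr_neg {z : ℤ} (h : z < 0) : ((cr z : ℕ) : ℤ) = -1 - z := by
  rw [cr, if_neg (by omega)]
  omega

theorem sc {m : ℕ} {a : ℤ → ℤ} (ha : NCI (-(m : ℤ)) m a) (hf : HF a)
    (hc : CI (-(m : ℤ)) m a (fun z => -1 - z)) : SingleCycle (uu m a) (ll m a) := by
  intro x y
  have key : ∀ z w : ℤ, Conn a (fun z => -1 - z) z w → (-(m : ℤ) ≤ z ∧ z < m) →
      ∀ hz : cr z < m, ∃ hw : cr w < m, (-(m : ℤ) ≤ w ∧ w < m) ∧ Relation.ReflTransGen
        (fun s t => t = uu m a s ∨ t = ll m a s) ⟨cr z, hz⟩ ⟨cr w, hw⟩ := by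
    intro z w hzw hz' hz
    induction hzw with
    | refl => exact ⟨hz, hz', Relation.ReflTransGen.refl⟩
    | @tail s t h1 h2 ih =>
      obtain ⟨hs, hs', ih⟩ := ih
      rcases h2 with h2 | h2
      · have ht' : -(m : ℤ) ≤ t ∧ t < m := by
          rw [h2]
          exact nci_mem ha hs'.1 hs'.2
        by_cases hp : 0 ≤ s
        · have hq : 0 ≤ t := by
            rw [h2]
            exact (hf s).1 hp
          have e1 := cr_pos hp
          have e2 := cr_pos hq
          have ht : cr t < m := by omega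
          refine ⟨ht, ht', ih.tail (Or.inl ?_)⟩
          apply Fin.ext
          have e3 := uu_val ha hf ⟨cr s, hs⟩
          have e4 : (((⟨cr s, hs⟩ : Fin m) : ℕ) : ℤ) = s := e1
          rw [e4, ← h2] at e3
          show cr t = _
          omega
        · have hq : t < 0 := by
            by_contra hh
            rw [h2] at hh
            exact hp ((hf s).2 (not_lt.1 hh))
          have e1 := cr_neg (not_le.1 hp)
          have e2 := cr_neg hq
          have ht : cr t < m := by omega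
          refine ⟨ht, ht', ih.tail (Or.inr ?_)⟩
          apply Fin.ext
          have e3 := ll_val ha hf ⟨cr s, hs⟩
          have e4 : (((⟨cr s, hs⟩ : Fin m) : ℕ) : ℤ) = -1 - s := e1
          have e5 : -1 - (-1 - s) = s := by ring
          rw [e4, e5, ← h2] at e3
          show cr t = _
          omega
      · have h2' : t = -1 - s := h2
        have e : cr t = cr s := by
          by_cases hp : 0 ≤ s
          · have e1 := cr_pos hp
            have e2 := cr_neg (z := t) (by omega)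
            omega
          · have e1 := cr_neg (not_le.1 hp)
            have e2 := cr_pos (z := t) (by omega)
            omega
        refine ⟨by rw [e]; exact hs, by omega, ?_⟩
        have e' : (⟨cr t, by rw [e]; exact hs⟩ : Fin m) = ⟨cr s, hs⟩ := Fin.ext e
        rw [e']
        exact ih
  have hx1 : cr (x : ℕ) = x := by
    have := cr_pos (z := ((x : ℕ) : ℤ)) (by omega)
    omega
  have hy1 : cr (y : ℕ) = y := by
    have := cr_pos (z := ((y : ℕ) : ℤ)) (by omega)
    omega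
  obtain ⟨hw, h', h⟩ := key _ _ (hc (x : ℕ) (y : ℕ) (by omega) (by omega) (by omega) (by omega))
    (by omega) (by rw [hx1]; exact x.2)
  have e1 : (⟨cr (x : ℕ), by rw [hx1]; exact x.2⟩ : Fin m) = x := Fin.ext hx1
  have e2 : (⟨cr (y : ℕ), hw⟩ : Fin m) = y := Fin.ext hy1
  rw [e1, e2] at h
  exact h

theorem ci {m : ℕ} {a : ℤ → ℤ} (ha : NCI (-(m : ℤ)) m a) (hf : HF a)
    (hc : SingleCycle (uu m a) (ll m a)) : CI (-(m : ℤ)) m a (fun z => -1 - z) := by
  have key : ∀ s t : Fin m, Relation.ReflTransGen (fun s t => t = uu m a s ∨ t = ll m a s) s t →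
      Conn a (fun z => -1 - z) (s : ℕ) (t : ℕ) := by
    intro s t hst
    induction hst with
    | refl => exact Relation.ReflTransGen.refl
    | @tail s t h1 h2 ih =>
      rcases h2 with h2 | h2
      · refine Relation.ReflTransGen.tail ih (Or.inl ?_)
        rw [h2, uu_val ha hf]
      · refine Relation.ReflTransGen.tail (Relation.ReflTransGen.tail
          (Relation.ReflTransGen.tail ih (Or.inr rfl)) (Or.inl rfl)) (Or.inr ?_)
        show ((t : ℕ) : ℤ) = -1 - a (-1 - ((s : ℕ) : ℤ))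
        rw [h2, ll_val ha hf]
  intro x y hx1 hx2 hy1 hy2
  have st : ∀ z : ℤ, -(m : ℤ) ≤ z → z < m → ∃ s : Fin m,
      Conn a (fun z => -1 - z) z (s : ℕ) ∧ Conn a (fun z => -1 - z) (s : ℕ) z := by
    intro z h1 h2
    by_cases hz : 0 ≤ z
    · refine ⟨toG m z ⟨hz, h2⟩, ?_, ?_⟩
      · rw [toG_val]
        exact Relation.ReflTransGen.refl
      · rw [toG_val]
        exact Relation.ReflTransGen.refl
    · refine ⟨toG m (-1 - z) ⟨by omega, by omega⟩, ?_, ?_⟩
      · rw [toG_val]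
        exact Relation.ReflTransGen.single (Or.inr rfl)
      · rw [toG_val]
        refine Relation.ReflTransGen.single (Or.inr ?_)
        show z = -1 - (-1 - z)
        ring
  obtain ⟨s, hs, -⟩ := st x hx1 hx2
  obtain ⟨t, -, ht⟩ := st y hy1 hy2
  exact hs.trans ((key _ _ (hc s t)).trans ht)

theorem emp (n : ℕ) : IsEmpty (T true (2 * n + 1)) := by
  refine ⟨fun a => ?_⟩
  obtain ⟨a, ha, hf⟩ := a
  have hf := hf rfl
  have hn := ha.nci
  have h := Finset.sum_involution (s := Finset.Ico (0 : ℤ) ((2 * n + 1 : ℕ) : ℤ))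
    (f := fun _ => (1 : ZMod 2)) (fun z _ => a z)
    (fun z _ => by
      show (1 : ZMod 2) + 1 = 0
      decide)
    (fun z hz _ => by
      rw [Finset.mem_Ico] at hz
      exact hn.ne z (by omega) (by omega))
    (fun z hz => by
      rw [Finset.mem_Ico] at hz ⊢
      have := nci_mem hn (z := z) (by omega) (by omega)
      exact ⟨(hf z).1 hz.1, this.2⟩)
    (fun z _ => hn.inv z)
  rw [Finset.sum_const, Int.card_Ico, nsmul_eq_mul, mul_one] at h
  have h1 : (((2 * n + 1 : ℕ) : ℤ) - 0).toNat = 2 * n + 1 := by omega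
  rw [h1] at h
  have h2 := (ZMod.natCast_eq_zero_iff (2 * n + 1) 2).1 h
  omega

/-- Packet MM. -/
theorem goalMM : Pool.Agent.Helper50.MB.MM := by
  refine ⟨fun n => ?_, fun n => ?_⟩
  · unfold cT meanders
    apply Nat.card_congr
    exact
      { toFun := fun a => ⟨(uu (2 * n) a.1, ll (2 * n) a.1), nc_uu a.2.1.nci (a.2.2 rfl),
          nc_ll a.2.1.nci (a.2.2 rfl), sc a.2.1.nci (a.2.2 rfl) a.2.1.con⟩
        invFun := fun b => ⟨gl (2 * n) b.1.1 b.1.2,
          ⟨nci_gl b.2.1 b.2.2.1, ci (nci_gl b.2.1 b.2.2.1) (hf_gl _ _)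
            (by rw [uu_gl b.2.1 b.2.2.1, ll_gl b.2.1 b.2.2.1]; exact b.2.2.2)⟩,
          fun _ => hf_gl _ _⟩
        left_inv := fun a => Subtype.ext (gl_eq a.2.1.nci (a.2.2 rfl))
        right_inv := fun b => Subtype.ext (Prod.ext (uu_gl b.2.1 b.2.2.1) (ll_gl b.2.1 b.2.2.1)) }
  · unfold cT
    have := emp n
    exact Nat.card_of_isEmpty

end Pool.Agent.Helper52.MB.MMm

namespace Pool.Agent.Helper52.MB

/-- Packet MM. -/
theorem goalMM : Pool.Agent.Helper50.MB.MM := MMm.goalMM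

end Pool.Agent.Helper52.MB
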